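import Pool.Agent.Q67.AXI.All
import Pool.Agent.Q95.CL.Far
import Pool.Agent.Q285.CL.WSc
import Pool.Agent.Q85.CL.Blow

/-!
Strong inflow with a positive production of the swirl at the singular points of axisymmetric
solutions of the Navier-Stokes equations.

`V = Fin 3 → ℝ` with the maximum norm. For a field `v` and a point `x` at the distance `ρ` of the
third axis, `sg x = ρ²`, `circ v x = ρ v_θ`, `rad v x = ρ v_ρ`, `vort v` is the vorticity.
-/

set_option autoImplicit false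

open MeasureTheory Set Metric
open H459R3.NS Pool.Agent.W268.NS
open Pool.Agent.Q85.CL Pool.Agent.TH305.AX Pool.Agent.Q67.AXI

namespace Pool.Agent.Results.MP_09540e_an.InflowSwirl

open Pool.Agent

/-- For all functions `B`, continuous and integrable on `(0, T)`, all `0 ≤ c < 1 / 2`, `α > 3 / 2`,
`C ≥ 0`, `T₀ < T` and `R > 0` there are a time `t` in `(T₀, T)`, `t > 0`, and a point `x` with
`‖x - a‖ ≤ R`, at the distance `ρ > 0` of the axis, with the following properties. Let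
`λ = log ((ν (T - t)) ^ (2 c) / ρ²)`. Then `ρ² < (ν (T - t)) ^ (2 c)` (so `λ > 0`),
`|Γ| > C λ ^ (-α)`, `ω_ρ = 0`, `Γ ω_z > 0` and
`ρ u_ρ < ν (-2 + 2 (α + 1) / λ) - (c / (T - t) + B(t)) ρ²`. -/
def StrongInflow (ν T : ℝ) (u : ℝ → V → V) (a : V) : Prop :=
  ∀ (B : ℝ → ℝ) (c α C T₀ R : ℝ), ContinuousOn B (Ioo 0 T) → IntegrableOn B (Ioo 0 T) →
    0 ≤ c → c < 1 / 2 → 3 / 2 < α → 0 ≤ C → T₀ < T → 0 < R →
      ∃ t ∈ Ioo 0 T, T₀ < t ∧ ∃ x : V, ‖x - a‖ ≤ R ∧ 0 < sg x ∧
        sg x < (ν * (T - t)) ^ (2 * c) ∧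
        C * Real.log ((ν * (T - t)) ^ (2 * c) / sg x) ^ (-α) < |circ (u t) x| ∧
        rad (vort (u t)) x = 0 ∧ 0 < circ (u t) x * vort (u t) x 2 ∧
        rad (u t) x < ν * (-2 + 2 * (α + 1) / Real.log ((ν * (T - t)) ^ (2 * c) / sg x))
          - (c / (T - t) + B t) * sg x

/-- Let `ν > 0`.

(a) Let `(u, p)` be a smooth solution of the Navier-Stokes equations in `(0, T) × Ω`, `Ω` open,
without force and with viscosity `ν`, with finite energy, finite dissipation and integrable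
pressure (`DSl`), and axisymmetric: `u(t, rot θ x) = rot θ (u(t, x))` if `x` and `rot θ x` are in
`Ω`. Then `StrongInflow` holds at every singular point `a ∈ Ω` of the axis.

(b) Let `(u, p)` be a smooth axisymmetric solution on `(0, T) × ℝ³` with bounded energy, finite
dissipation and locally integrable pressure (`WSl`). If `u` is unbounded near the time `T` then it
has a singular point. All the singular points lie on the axis and `StrongInflow` holds at each. -/
theorem result : ∀ (ν T : ℝ) (u : ℝ → V → V) (p : ℝ → V → ℝ), 0 < ν →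
      (∀ (E : ℝ) (Ω : Set V), DSl ν T E Ω u p →
        (∀ t ∈ Ioo 0 T, ∀ (θ : ℝ), ∀ x ∈ Ω, rot θ x ∈ Ω → u t (rot θ x) = rot θ (u t x)) →
        ∀ a ∈ Ω, a 0 = 0 → a 1 = 0 → Sing T u a → StrongInflow ν T u a) ∧
      ∀ E : ℝ, WSl ν T E u p → (∀ t ∈ Ioo 0 T, Axi (u t)) → (Blow T u → ∃ a, Sing T u a) ∧
        ∀ a, Sing T u a → a 0 = 0 ∧ a 1 = 0 ∧ StrongInflow ν T u a := by
  refine fun ν T u p hν => ⟨fun E Ω h hax a ha ha0 ha1 hs =>
      Q67.AXI.infl_D2 Q67.AXI.hMainP Q67.AXI.hTra hν h hax ha ha0 ha1 hs,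
    fun E h hax => ⟨fun hB => Q85.CL.sing_whole Q95.CL.far Q285.CL.wsc hν h hB,
      fun a hs => ?_⟩⟩
  obtain ⟨h0, h1⟩ := Q67.AXI.axis_W Q67.AXI.hTra Q67.AXI.hWho Q67.AXI.hGR hν h hax hs
  exact ⟨h0, h1, Q67.AXI.infl_D2 Q67.AXI.hMainP Q67.AXI.hTra hν (Q85.CL.whole_D h a)
    (fun t ht θ x _ _ => hax t ht θ x) (Metric.mem_ball_self (by norm_num)) h0 h1 hs⟩

end Pool.Agent.Results.MP_09540e_an.InflowSwirl
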