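import Pool.Agent.U481.SW.Main
import Pool.Agent.U481.NS.PubB
import Pool.Agent.Q67.AXI.All
import Pool.Agent.Q95.CL.Far
import Pool.Agent.Q285.CL.WSc
import Pool.Agent.Q85.CL.Blow

/-!
Large vorticities on the same level of the swirl, at the singular points of axisymmetric solutions
of the Navier-Stokes equations.

`V = Fin 3 → ℝ` with the maximum norm, so `{y | ‖y - a‖ ≤ R}` is a cube; `len` is the Euclidean
length, `curl` the vorticity, and `circ v x = x₀ v₁(x) - x₁ v₀(x) = ρ v_θ` the swirl (circulation)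
`Γ` of the field `v`.

The swirl is constant along the vortex lines. So for every smooth function `s` the field `s(Γ) ω` is
free of divergence. The theorem: near a singular point there are times at which the large
vorticities cannot be reoriented by a sign which depends on `Γ` in such a way that a function with
Lipschitz constant one increases along them, at the rate `κ`. In particular (`g = y₂`): near a
singular point there are large vorticities, off the axis, with `sgn(Γ) ω_z < κ |ω|`. So there is no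
singularity if `sgn(Γ) ω_z ≥ κ |ω|` for the large vorticities off the axis; then `|Γ|` increases with
the distance to the axis (Rayleigh's condition for the centrifugal stability).
-/

set_option autoImplicit false

open MeasureTheory Set Metric
open scoped ContDiff
open Pool.Agent.U481.NS.Pub
open Pool.Agent.TH305.AX (rot circ)

namespace Pool.Agent.Results.MP_09540e_an.SwirlLevels

/-- `(u, p)` is a smooth solution of the Navier-Stokes equations with viscosity `ν` and without
force on `(0, T) × ℝ³`, with bounded energy, finite dissipation and locally integrable pressure. -/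
structure WholeSpaceSolution (ν T : ℝ) (u : ℝ → V → V) (p : ℝ → V → ℝ) : Prop where
  smooth_u : ContDiffOn ℝ ∞ (fun z : ℝ × V => u z.1 z.2) (Ioo 0 T ×ˢ univ)
  smooth_p : ContDiffOn ℝ ∞ (fun z : ℝ × V => p z.1 z.2) (Ioo 0 T ×ˢ univ)
  divfree : ∀ t ∈ Ioo 0 T, ∀ x, ∑ i, D i (fun y => u t y i) x = 0
  momentum : ∀ t ∈ Ioo 0 T, ∀ x i,
    deriv (fun s => u s x i) t + ∑ j, u t x j * D j (fun y => u t y i) x
      = ν * ∑ j, D j (D j (fun y => u t y i)) x - D i (p t) x
  energy : ∃ E : ℝ, ∀ t ∈ Ioo 0 T, Integrable (fun x => ∑ i, u t x i ^ 2) ∧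
    ∫ x, ∑ i, u t x i ^ 2 ≤ E
  dissipation : IntegrableOn
    (fun z : ℝ × V => ∑ i, ∑ j, D j (fun y => u z.1 y i) z.2 ^ 2) (Ioo 0 T ×ˢ univ)
  pressure : ∀ R : ℝ, IntegrableOn (fun z : ℝ × V => p z.1 z.2) (Ioo 0 T ×ˢ ball 0 R)

/-- For every `κ > 0`, every cube with centre `a` and every threshold `m t`, `T₀ < t < T`, there is
a time `t` in `(T₀, T)` such that for every continuously differentiable function `g` with the
Lipschitz constant one there are points `x`, `y` of the cube, off the axis and on the same level of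
the swirl, with vorticities larger than the threshold, such that `ω · ∇g < κ |ω|` at `x` and
`ω · ∇g > - κ |ω|` at `y`. -/
def LevelPairs (T : ℝ) (u : ℝ → V → V) (a : V) : Prop :=
  ∀ (R T₀ κ : ℝ) (m : ℝ → V → ℝ), 0 < R → 0 ≤ T₀ → T₀ < T → 0 < κ → Threshold T₀ T a R m →
    ∃ t ∈ Ioo T₀ T, ∀ g : V → ℝ, ContDiff ℝ 1 g → (∀ y z, |g y - g z| ≤ len (y - z)) →
      ∃ x y : V, ‖x - a‖ ≤ R ∧ ‖y - a‖ ≤ R ∧ 0 < x 0 ^ 2 + x 1 ^ 2 ∧ 0 < y 0 ^ 2 + y 1 ^ 2 ∧
        circ (u t) x = circ (u t) y ∧ m t x < len (curl (u t) x) ∧ m t y < len (curl (u t) y) ∧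
        fderiv ℝ g x (curl (u t) x) < κ * len (curl (u t) x) ∧
        -(κ * len (curl (u t) y)) < fderiv ℝ g y (curl (u t) y)

/-- Let `ν > 0`.

(a) Let `(u, p)` be a smooth solution of the Navier-Stokes equations in `(0, T) × Ω`, `Ω` open,
without force and with viscosity `ν`, with bounded energy, finite dissipation and integrable
pressure, and axisymmetric: `u(t, rot θ x) = rot θ (u(t, x))` if `x` and `rot θ x` are in `Ω`. Then
`LevelPairs` holds at every singular point `a ∈ Ω`.

(b) Let `(u, p)` be a smooth axisymmetric solution on `(0, T) × ℝ³` with bounded energy, finite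
dissipation and locally integrable pressure. If `u` is unbounded near the time `T` then it has a
singular point. All the singular points lie on the axis and `LevelPairs` holds at each. -/
theorem result {ν T : ℝ} {u : ℝ → V → V} {p : ℝ → V → ℝ} (hν : 0 < ν) :
    (∀ Ω : Set V, Solution ν T Ω u p →
      (∀ t ∈ Ioo 0 T, ∀ (θ : ℝ), ∀ x ∈ Ω, rot θ x ∈ Ω → u t (rot θ x) = rot θ (u t x)) →
      ∀ a ∈ Ω, Singular T u a → LevelPairs T u a) ∧
    (WholeSpaceSolution ν T u p → (∀ t ∈ Ioo 0 T, ∀ (θ : ℝ) (x : V),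
      u t (rot θ x) = rot θ (u t x)) →
      ((∀ B T₀ : ℝ, T₀ < T → ∃ t ∈ Ioo 0 T, T₀ < t ∧ ∃ x, B < ‖u t x‖) →
        ∃ a, Singular T u a) ∧
      ∀ a, Singular T u a → a 0 = 0 ∧ a 1 = 0 ∧ LevelPairs T u a) := by
  refine ⟨fun Ω h hax a ha hs R T₀ κ m hR hT0 hT₀ hκ hm => ?_, fun h hax => ?_⟩
  · obtain ⟨E, hD⟩ := h.dsl
    exact Pool.Agent.U481.SW.levD hν hD hax ha hs hT0 hT₀ hκ hR hm.cont hm.nonneg hm.kt
  · obtain ⟨E, hE⟩ := h.energy
    have hW : Pool.Agent.Q85.CL.WSl ν T E u p :=
      ⟨h.smooth_u, h.smooth_p, h.divfree, h.momentum, fun t ht => (hE t ht).1,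
        fun t ht => (hE t ht).2, h.dissipation, h.pressure⟩
    refine ⟨fun hB => Pool.Agent.Q85.CL.sing_whole Pool.Agent.Q95.CL.far Pool.Agent.Q285.CL.wsc hν
      hW hB, fun a hs => ?_⟩
    obtain ⟨h0, h1⟩ := Pool.Agent.Q67.AXI.axis_W Pool.Agent.Q67.AXI.hTra
      Pool.Agent.Q67.AXI.hWho Pool.Agent.Q67.AXI.hGR hν hW hax hs
    refine ⟨h0, h1, fun R T₀ κ m hR hT0 hT₀ hκ hm => ?_⟩
    exact Pool.Agent.U481.SW.levD hν (Pool.Agent.Q85.CL.whole_D hW a)
      (fun t ht θ x _ _ => hax t ht θ x) (mem_ball_self (by norm_num)) hs hT0 hT₀ hκ hR hm.cont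
      hm.nonneg hm.kt

end Pool.Agent.Results.MP_09540e_an.SwirlLevels
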